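import Pool.Agent.helper63.TI.SpecA

/-! Row ta:AP2 (project ti, MP_3703a7_ag). -/

set_option autoImplicit false

namespace Pool.Agent.TI

open Polynomial NumberField Pool.Agent.GJ Pool.Agent.TK Pool.Agent.TQ Pool.Agent.TFQ Pool.Agent.TD Pool.Agent.AQ
open Pool.Agent.FJ (VT Om chiO IsFrobO rf rs)
open scoped TensorProduct

noncomputable section

section AP2
variable {q : ℕ} [Fact q.Prime] {V : Type} [AddCommGroup V] [Module ℚ_[q] V]

theorem AP2_q0 : (q : ℚ_[q]) ≠ 0 := by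
  exact_mod_cast (Fact.out : q.Prime).ne_zero

/-- `A T ⊂ q^e T` -/
def AP2_M (T : AddSubgroup V) (e : ℤ) (A : Module.End ℚ_[q] V) : Prop :=
  ∀ t ∈ T, ∃ t' ∈ T, A t = (q : ℚ_[q]) ^ e • t'

theorem AP2_int {T : AddSubgroup V} (hT : Lat q T) (e : ℤ) (he : 0 ≤ e) (t : V) (ht : t ∈ T) :
    (q : ℚ_[q]) ^ e • t ∈ T := by
  obtain ⟨N, b, hb⟩ := hT
  rw [hb] at ht ⊢
  intro j
  rw [map_smul, Finsupp.smul_apply, smul_eq_mul, norm_mul]
  have h1 : ‖(q : ℚ_[q]) ^ e‖ ≤ 1 := by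
    obtain ⟨n, rfl⟩ := Int.eq_ofNat_of_zero_le he
    rw [zpow_natCast, norm_pow]
    exact pow_le_one₀ (norm_nonneg _) (Padic.norm_p_lt_one (p := q)).le
  calc ‖(q : ℚ_[q]) ^ e‖ * ‖(b.repr t) j‖ ≤ 1 * 1 :=
        mul_le_mul h1 (ht j) (norm_nonneg _) zero_le_one
    _ = 1 := one_mul 1

theorem AP2_mono {T : AddSubgroup V} (hT : Lat q T) {e e' : ℤ} (h : e' ≤ e) {A : Module.End ℚ_[q] V}
    (hA : AP2_M T e A) : AP2_M T e' A := by
  intro t ht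
  obtain ⟨t', ht', h1⟩ := hA t ht
  refine ⟨(q : ℚ_[q]) ^ (e - e') • t', AP2_int hT _ (by omega) _ ht', ?_⟩
  rw [h1, smul_smul, ← zpow_add₀ AP2_q0]
  congr 2
  omega

theorem AP2_add {T : AddSubgroup V} {e : ℤ} {A B : Module.End ℚ_[q] V}
    (hA : AP2_M T e A) (hB : AP2_M T e B) : AP2_M T e (A + B) := by
  intro t ht
  obtain ⟨t1, ht1, h1⟩ := hA t ht
  obtain ⟨t2, ht2, h2⟩ := hB t ht
  exact ⟨t1 + t2, T.add_mem ht1 ht2, by rw [LinearMap.add_apply, h1, h2, smul_add]⟩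

theorem AP2_sub {T : AddSubgroup V} {e : ℤ} {A B : Module.End ℚ_[q] V}
    (hA : AP2_M T e A) (hB : AP2_M T e B) : AP2_M T e (A - B) := by
  intro t ht
  obtain ⟨t1, ht1, h1⟩ := hA t ht
  obtain ⟨t2, ht2, h2⟩ := hB t ht
  exact ⟨t1 - t2, T.sub_mem ht1 ht2, by rw [LinearMap.sub_apply, h1, h2, smul_sub]⟩

theorem AP2_mul {T : AddSubgroup V} {e e' : ℤ} {A B : Module.End ℚ_[q] V}
    (hA : AP2_M T e A) (hB : AP2_M T e' B) : AP2_M T (e + e') (A * B) := by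
  intro t ht
  obtain ⟨t2, ht2, h2⟩ := hB t ht
  obtain ⟨t1, ht1, h1⟩ := hA t2 ht2
  refine ⟨t1, ht1, ?_⟩
  rw [Module.End.mul_apply, h2, map_smul, h1, smul_smul, ← zpow_add₀ AP2_q0]
  congr 2
  omega

theorem AP2_smul {T : AddSubgroup V} {e : ℤ} {A : Module.End ℚ_[q] V} (n : ℕ)
    (hA : AP2_M T e A) : AP2_M T (n + e) ((q : ℚ_[q]) ^ n • A) := by
  intro t ht
  obtain ⟨t1, ht1, h1⟩ := hA t ht
  refine ⟨t1, ht1, ?_⟩
  rw [LinearMap.smul_apply, h1, smul_smul, ← zpow_natCast, ← zpow_add₀ AP2_q0]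

/-- every vector is in `q^(-e) T` -/
theorem AP2_vec {T : AddSubgroup V} (hT : Lat q T) (v : V) : ∃ e : ℕ, (q : ℚ_[q]) ^ e • v ∈ T := by
  obtain ⟨N, b, hb⟩ := hT
  have h1 : ∀ x : ℚ_[q], ∃ e : ℕ, ‖(q : ℚ_[q]) ^ e * x‖ ≤ 1 := by
    intro x
    have hq : ‖(q : ℚ_[q])‖ < 1 := Padic.norm_p_lt_one (p := q)
    have ht : Filter.Tendsto (fun e : ℕ => ‖(q : ℚ_[q])‖ ^ e * ‖x‖) Filter.atTop (nhds (0 * ‖x‖)) :=
      (tendsto_pow_atTop_nhds_zero_of_lt_one (norm_nonneg _) hq).mul_const _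
    rw [zero_mul] at ht
    obtain ⟨e, he⟩ := (ht.eventually (gt_mem_nhds zero_lt_one)).exists
    exact ⟨e, by rw [norm_mul, norm_pow]; exact he.le⟩
  choose f hf using fun j => h1 (b.repr v j)
  refine ⟨Finset.univ.sup f, ?_⟩
  rw [hb]
  intro j
  rw [map_smul, Finsupp.smul_apply, smul_eq_mul]
  have h2 : f j ≤ Finset.univ.sup f := Finset.le_sup (Finset.mem_univ j)
  obtain ⟨d, hd⟩ := Nat.exists_eq_add_of_le h2
  rw [hd, pow_add, mul_comm ((q : ℚ_[q]) ^ f j), mul_assoc, norm_mul, norm_pow]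
  have h3 : ‖(q : ℚ_[q])‖ ^ d ≤ 1 :=
    pow_le_one₀ (norm_nonneg _) (Padic.norm_p_lt_one (p := q)).le
  calc ‖(q : ℚ_[q])‖ ^ d * ‖(q : ℚ_[q]) ^ f j * (b.repr v) j‖ ≤ 1 * 1 :=
        mul_le_mul h3 (hf j) (norm_nonneg _) zero_le_one
    _ = 1 := one_mul 1

theorem AP2_vec' {T : AddSubgroup V} (hT : Lat q T) (v : V) (e e' : ℕ) (h : e ≤ e')
    (hv : (q : ℚ_[q]) ^ e • v ∈ T) : (q : ℚ_[q]) ^ e' • v ∈ T := by
  have := AP2_int hT ((e' - e : ℕ) : ℤ) (by omega) _ hv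
  rw [zpow_natCast, smul_smul, ← pow_add, Nat.sub_add_cancel h] at this
  exact this

/-- the unit ball acts on the lattice -/
theorem AP2_ball {T : AddSubgroup V} (hT : Lat q T) (a : ℚ_[q]) (ha : ‖a‖ ≤ 1) (t : V) (ht : t ∈ T) :
    a • t ∈ T := by
  obtain ⟨N, b, hb⟩ := hT
  rw [hb] at ht ⊢
  intro j
  rw [map_smul, Finsupp.smul_apply, smul_eq_mul, norm_mul]
  calc ‖a‖ * ‖(b.repr t) j‖ ≤ 1 * 1 := mul_le_mul ha (ht j) (norm_nonneg _) zero_le_one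
    _ = 1 := one_mul 1

/-- an operator maps `T` to `q^(-c) T` -/
theorem AP2_op {T : AddSubgroup V} (hT : Lat q T) (Y : Module.End ℚ_[q] V) :
    ∃ c : ℕ, AP2_M T (-(c : ℤ)) Y := by
  have hT' := hT
  obtain ⟨N, b, hb⟩ := hT
  choose f hf using fun j => AP2_vec hT' (Y (b j))
  refine ⟨Finset.univ.sup f, fun t ht => ?_⟩
  refine ⟨(q : ℚ_[q]) ^ (Finset.univ.sup f) • Y t, ?_, ?_⟩
  · have h1 : t = ∑ j, b.repr t j • b j := (b.sum_repr t).symm
    have h2 : (q : ℚ_[q]) ^ (Finset.univ.sup f) • Y t =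
        ∑ j, b.repr t j • ((q : ℚ_[q]) ^ (Finset.univ.sup f) • Y (b j)) := by
      conv_lhs => rw [h1]
      rw [map_sum, Finset.smul_sum]
      refine Finset.sum_congr rfl fun j _ => ?_
      rw [map_smul, smul_comm]
    rw [h2]
    refine T.sum_mem fun j _ => AP2_ball hT' _ ((hb t).1 ht j) _ ?_
    exact AP2_vec' hT' _ _ _ (Finset.le_sup (Finset.mem_univ j)) (hf j)
  · rw [zpow_neg, zpow_natCast, smul_smul, inv_mul_cancel₀ (pow_ne_zero _ AP2_q0), one_smul]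

/-- the inverse of an operator close to one is close to one -/
theorem AP2_inv {T : AddSubgroup V} (hT : Lat q T) {r : ℤ} (hr : 1 ≤ r) {K K' : Module.End ℚ_[q] V}
    (hK : AP2_M T r (K - 1)) (h1 : K * K' = 1) : AP2_M T r (K' - 1) := by
  have key : ∀ t ∈ T, K' t ∈ T := by
    intro t ht
    by_contra hne
    have hex := AP2_vec hT (K' t)
    classical
    have hf := Nat.find_spec hex
    have hpos : Nat.find hex ≠ 0 := by
      intro h0
      rw [h0, pow_zero, one_smul] at hf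
      exact hne hf
    obtain ⟨e, he⟩ := Nat.exists_eq_succ_of_ne_zero hpos
    have hmin := Nat.find_min hex (m := e) (by omega)
    apply hmin
    rw [he] at hf
    obtain ⟨w, hw, h2⟩ := hK _ hf
    have h3 : K (K' t) = t := by
      rw [← Module.End.mul_apply, h1, Module.End.one_apply]
    rw [LinearMap.sub_apply, Module.End.one_apply, map_smul, h3] at h2
    -- q^(e+1) t - q^(e+1) u = q^r w
    have h4 : (q : ℚ_[q]) ^ e • K' t = (q : ℚ_[q]) ^ (e : ℤ) • t - (q : ℚ_[q]) ^ (r - 1) • w := by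
      have h5 : (q : ℚ_[q])⁻¹ • ((q : ℚ_[q]) ^ (e + 1) • K' t) =
          (q : ℚ_[q])⁻¹ • ((q : ℚ_[q]) ^ (e + 1) • t - (q : ℚ_[q]) ^ r • w) := by
        rw [← h2, sub_sub_cancel]
      rw [smul_sub, smul_smul, smul_smul, smul_smul, pow_succ', ← mul_assoc,
        inv_mul_cancel₀ AP2_q0, one_mul] at h5
      rw [h5, zpow_natCast, sub_eq_add_neg r 1, zpow_add₀ AP2_q0, zpow_neg_one, mul_comm]
    rw [h4]
    exact T.sub_mem (AP2_int hT _ (by omega) _ ht) (AP2_int hT _ (by omega) _ hw)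
  intro t ht
  obtain ⟨w, hw, h2⟩ := hK _ (key t ht)
  have h3 : K (K' t) = t := by
    rw [← Module.End.mul_apply, h1, Module.End.one_apply]
  rw [LinearMap.sub_apply, Module.End.one_apply, h3] at h2
  refine ⟨-w, T.neg_mem hw, ?_⟩
  rw [LinearMap.sub_apply, Module.End.one_apply, smul_neg, ← h2, neg_sub]

theorem AP2_nr {T : AddSubgroup V} {H Y : Module.End ℚ_[q] V} {N m : ℕ} :
    Nr T H Y N m ↔ AP2_M T ((N + m : ℕ) : ℤ) (H - 1 - (q : ℚ_[q]) ^ N • Y) := by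
  refine forall_congr' fun t => forall_congr' fun ht => exists_congr fun t' => and_congr_right fun ht' => ?_
  rw [LinearMap.sub_apply, LinearMap.sub_apply, Module.End.one_apply, LinearMap.smul_apply, zpow_natCast]
  constructor
  · intro h
    rw [h]
    abel
  · intro h
    rw [← h]
    abel

theorem AP2_core {T : AddSubgroup V} (hT : Lat q T) {Y Y' : Module.End ℚ_[q] V} {c : ℕ}
    (hY : AP2_M T (-(c : ℤ)) Y) (hY' : AP2_M T (-(c : ℤ)) Y') (m N1 N2 : ℕ) (h1 : N1 ≤ N2)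
    (h2 : m + 3 * c + 1 ≤ N1) {H H' J J' : Module.End ℚ_[q] V} (hJ : H * J = 1) (hJ' : H' * J' = 1)
    (hH : AP2_M T ((N1 + (m + c) : ℕ) : ℤ) (H - 1 - (q : ℚ_[q]) ^ N1 • Y))
    (hH' : AP2_M T ((N2 + (m + c) : ℕ) : ℤ) (H' - 1 - (q : ℚ_[q]) ^ N2 • Y')) :
    AP2_M T ((N1 + N2 + m : ℕ) : ℤ)
      (H * H' * J * J' - 1 - (q : ℚ_[q]) ^ (N1 + N2) • (Y * Y' - Y' * Y)) := by
  obtain ⟨P1, hP1⟩ : ∃ P, P = (q : ℚ_[q]) ^ N1 • Y := ⟨_, rfl⟩
  obtain ⟨P2, hP2⟩ : ∃ P, P = (q : ℚ_[q]) ^ N2 • Y' := ⟨_, rfl⟩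
  rw [← hP1] at hH
  rw [← hP2] at hH'
  have hm1 : AP2_M T ((N1 : ℤ) + -(c : ℤ)) P1 := by rw [hP1]; exact AP2_smul N1 hY
  have hm2 : AP2_M T ((N2 : ℤ) + -(c : ℤ)) P2 := by rw [hP2]; exact AP2_smul N2 hY'
  obtain ⟨U, hU⟩ : ∃ U, U = H - 1 - P1 := ⟨_, rfl⟩
  obtain ⟨U', hU'⟩ : ∃ U', U' = H' - 1 - P2 := ⟨_, rfl⟩
  rw [← hU] at hH
  rw [← hU'] at hH'
  have e1 : H = 1 + P1 + U := by rw [hU]; abel
  have e2 : H' = 1 + P2 + U' := by rw [hU']; abel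
  have e3 : (q : ℚ_[q]) ^ (N1 + N2) • (Y * Y' - Y' * Y) = P1 * P2 - P2 * P1 := by
    rw [hP1, hP2, smul_mul_assoc, mul_smul_comm, smul_mul_assoc, mul_smul_comm, smul_smul, smul_smul,
      pow_add, smul_sub, mul_comm ((q : ℚ_[q]) ^ N2)]
  -- the commutator
  have hR : AP2_M T ((N1 + N2 + m : ℕ) : ℤ) (H * H' - H' * H - (P1 * P2 - P2 * P1)) := by
    have : H * H' - H' * H - (P1 * P2 - P2 * P1) =
        P1 * U' + U * P2 + U * U' - P2 * U - U' * P1 - U' * U := by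
      rw [e1, e2]
      noncomm_ring
    rw [this]
    refine AP2_sub (AP2_sub (AP2_sub (AP2_add (AP2_add ?_ ?_) ?_) ?_) ?_) ?_
    · exact AP2_mono hT (by push_cast; omega) (AP2_mul hm1 hH')
    · exact AP2_mono hT (by push_cast; omega) (AP2_mul hH hm2)
    · exact AP2_mono hT (by push_cast; omega) (AP2_mul hH hH')
    · exact AP2_mono hT (by push_cast; omega) (AP2_mul hm2 hH)
    · exact AP2_mono hT (by push_cast; omega) (AP2_mul hH' hm1)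
    · exact AP2_mono hT (by push_cast; omega) (AP2_mul hH' hH)
  -- the operator K
  have hA : AP2_M T ((N1 : ℤ) - c) (P1 + U) :=
    AP2_add (AP2_mono hT (by omega) hm1) (AP2_mono hT (by push_cast; omega) hH)
  have hB : AP2_M T ((N2 : ℤ) - c) (P2 + U') :=
    AP2_add (AP2_mono hT (by omega) hm2) (AP2_mono hT (by push_cast; omega) hH')
  have hK : AP2_M T ((N1 : ℤ) - c) (H' * H - 1) := by
    have : H' * H - 1 = (P1 + U) + (P2 + U') + (P2 + U') * (P1 + U) := by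
      rw [e1, e2]
      noncomm_ring
    rw [this]
    refine AP2_add (AP2_add hA (AP2_mono hT (by omega) hB)) ?_
    exact AP2_mono hT (by omega) (AP2_mul hB hA)
  have hKJ : H' * H * (J * J') = 1 := by
    rw [mul_assoc, ← mul_assoc H J J', hJ, one_mul, hJ']
  have hK' : AP2_M T ((N1 : ℤ) - c) (J * J' - 1) := AP2_inv hT (by omega) hK hKJ
  have hK0 : AP2_M T 0 (J * J') := by
    have : J * J' = (J * J' - 1) + 1 := by abel
    rw [this]
    refine AP2_add (AP2_mono hT (by omega) hK') fun t ht => ⟨t, ht, ?_⟩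
    rw [zpow_zero, one_smul, Module.End.one_apply]
  have hC : AP2_M T ((N1 : ℤ) + N2 - 2 * c) (P1 * P2 - P2 * P1) :=
    AP2_sub (AP2_mono hT (by omega) (AP2_mul hm1 hm2)) (AP2_mono hT (by omega) (AP2_mul hm2 hm1))
  have hfin : H * H' * J * J' - 1 - (q : ℚ_[q]) ^ (N1 + N2) • (Y * Y' - Y' * Y) =
      (P1 * P2 - P2 * P1) * (J * J' - 1) + (H * H' - H' * H - (P1 * P2 - P2 * P1)) * (J * J') := by
    rw [e3]
    have h5 : H * H' * J * J' = (H * H' - H' * H) * (J * J') + 1 := by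
      rw [sub_mul, hKJ]
      noncomm_ring
    rw [h5]
    noncomm_ring
  rw [hfin]
  refine AP2_add ?_ ?_
  · exact AP2_mono hT (by push_cast; omega) (AP2_mul hC hK')
  · exact AP2_mono hT (by push_cast; omega) (AP2_mul hR hK0)

end AP2

theorem AP2 : AP2_stmt := by
  intro q _ k V _ _ G _ T ρ G' hT Y Y' hY hY' m
  choose c1 hc1 using fun i => AP2_op (hT i) (Y i)
  choose c2 hc2 using fun i => AP2_op (hT i) (Y' i)
  obtain ⟨c, hc⟩ : ∃ c, c = Finset.univ.sup c1 + Finset.univ.sup c2 := ⟨_, rfl⟩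
  have h1 : ∀ i, AP2_M (T i) (-(c : ℤ)) (Y i) := fun i =>
    AP2_mono (hT i) (by
      have : c1 i ≤ Finset.univ.sup c1 := Finset.le_sup (Finset.mem_univ i)
      omega) (hc1 i)
  have h2 : ∀ i, AP2_M (T i) (-(c : ℤ)) (Y' i) := fun i =>
    AP2_mono (hT i) (by
      have : c2 i ≤ Finset.univ.sup c2 := Finset.le_sup (Finset.mem_univ i)
      omega) (hc2 i)
  obtain ⟨N1, hN1⟩ := hY (m + c)
  obtain ⟨N2, hN2⟩ := hY' (m + c)
  refine ⟨2 * N1 + 2 * N2 + 2 * (m + 3 * c + 1), fun N hN => ?_⟩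
  obtain ⟨g, hg, hg1⟩ := hN1 (N / 2) (by omega)
  obtain ⟨g', hg', hg1'⟩ := hN2 (N - N / 2) (by omega)
  refine ⟨g * g' * g⁻¹ * g'⁻¹,
    G'.mul_mem (G'.mul_mem (G'.mul_mem hg hg') (G'.inv_mem hg)) (G'.inv_mem hg'), fun i => ?_⟩
  have hJ : ρ i g * ρ i g⁻¹ = 1 := by rw [← map_mul, mul_inv_cancel, map_one]
  have hJ' : ρ i g' * ρ i g'⁻¹ = 1 := by rw [← map_mul, mul_inv_cancel, map_one]
  have h3 := AP2_core (hT i) (h1 i) (h2 i) m (N / 2) (N - N / 2) (by omega) (by omega) hJ hJ'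
    (AP2_nr.1 (hg1 i)) (AP2_nr.1 (hg1' i))
  have h4 : N / 2 + (N - N / 2) = N := by omega
  rw [h4] at h3
  refine AP2_nr.2 ?_
  rw [map_mul, map_mul, map_mul]
  exact h3

end

end Pool.Agent.TI
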